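import Pool.Agent.Lib.MP_8b575b_co.Cyc.Lin
import Pool.Agent.Lib.MP_8b575b_co.Cyc.Om
import Pool.Agent.Lib.MP_8b575b_co.Cyc.Asy
import Pool.Agent.Lib.MP_8b575b_co.Cyc.Hda
import Pool.Agent.Lib.MP_8b575b_co.Cyc.Hdi
import Pool.Agent.Lib.MP_8b575b_co.Cyc.Inv
import Pool.Agent.Lib.MP_8b575b_co.Cyc.Wr
import Pool.Agent.Lib.MP_8b575b_co.Cyc.Clo
import Pool.Agent.Lib.MP_8b575b_co.Cyc.Core
import Pool.Agent.Lib.MP_8b575b_co.Cyc.Cnt
import Pool.Agent.Lib.MP_8b575b_co.Cyc.Orb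
import Pool.Agent.Lib.MP_8b575b_co.Cyc.Fie
import Pool.Agent.Lib.MP_8b575b_co.Cyc.Red

/-!
# MP_8b575b_co: cyclic codes

Let `K` be the field with `q` elements, `k ≥ 3`, `V` a space of dimension `2 k` over `K`, `G` a commutative group of
linear automorphisms of `V` which is transitive on the points (lines through zero) of `V`, and `D` a `G`-invariant set
of `k`-dimensional subspaces of `V` which pairwise meet in dimension at most one. Then `D` has at most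
`q ^ (2 k) - 1` elements.
-/

set_option autoImplicit false

open scoped Classical in
theorem Pool.Agent.Results.MP_8b575b_co.CyclicCodes.result :
    ∀ (K V : Type) [Field K] [Fintype K] [AddCommGroup V] [Module K V] (k : ℕ), 3 ≤ k →
      Module.finrank K V = 2 * k → ∀ G : Subgroup (V ≃ₗ[K] V),
      (∀ g ∈ G, ∀ h ∈ G, g * h = h * g) →
      (∀ v w : V, v ≠ 0 → w ≠ 0 → ∃ g ∈ G, ∃ c : K, g v = c • w) →
      ∀ D : Finset (Submodule K V), (∀ U ∈ D, Module.finrank K U = k) →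
      (∀ U ∈ D, ∀ W ∈ D, U ≠ W → Module.finrank K ↥(U ⊓ W) ≤ 1) →
      (∀ g ∈ G, ∀ U ∈ D, U.map (g : V →ₗ[K] V) ∈ D) →
      D.card ≤ Fintype.card K ^ (2 * k) - 1 := by
  have hLin := Pool.Agent.MP8b.tLin
  have hOm := Pool.Agent.MP8b.tOm
  have hAsy := Pool.Agent.MP8b.tAsy hLin hOm
  have hCore := Pool.Agent.MP8b.tCore hOm hAsy Pool.Agent.MP8b.tHda Pool.Agent.MP8b.tHdi
    Pool.Agent.MP8b.tInv Pool.Agent.MP8b.tWr Pool.Agent.MP8b.tClo
  have hFie := Pool.Agent.MP8b.tFie hCore Pool.Agent.MP8b.tCnt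
    (Pool.Agent.MP8b.tOrb Pool.Agent.MP8b.tCnt)
  exact Pool.Agent.MP8b.tRed hFie
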