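import Pool.Agent.Lib.MP_8b575b_co.Hom.MainB

/-!
# MP_8b575b_co: codes with a cyclic group of homologies

Let `K` be the field with `q` elements, `k ≥ 4`, `L` an extension field of degree `k`, `X` a `K`-space of dimension
`k`. For `q = 2` or `k ≥ 5` a set of `k`-dimensional `K`-subspaces of `X × L` which pairwise meet in dimension at most
one, and which is invariant under the maps `(x, y) ↦ (x, b y)`, `b ∈ L`, `b ≠ 0`, has at most `q ^ (2 k) + 1` elements.
-/

set_option autoImplicit false

theorem Pool.Agent.Results.MP_8b575b_co.HomologyGroups.result :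
    ∀ (K L X : Type) [Field K] [Fintype K] [Field L] [Fintype L] [Algebra K L] [AddCommGroup X]
      [Module K X] (k : ℕ), 4 ≤ k → Module.finrank K L = k → Module.finrank K X = k →
      (Fintype.card K = 2 ∨ 5 ≤ k) →
      ∀ D : Finset (Submodule K (X × L)), (∀ U ∈ D, Module.finrank K U = k) →
      (∀ U ∈ D, ∀ W ∈ D, U ≠ W → Module.finrank K ↥(U ⊓ W) ≤ 1) →
      (∀ b : L, b ≠ 0 → ∀ U ∈ D, U.map (LinearMap.id.prodMap (LinearMap.mulLeft K b)) ∈ D) →
      D.card ≤ Fintype.card K ^ (2 * k) + 1 :=
  Pool.Agent.MP8bH.thmH2
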