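import Pool.Agent.Lib.MP_8b575b_co.Lt.Main

/-!
# MP_8b575b_co: codes with a light subspace

Let `K` be the field with `q` elements, `V` a space of dimension `2 k` over `K` and `C` a finite set of
`k`-dimensional subspaces of `V` which pairwise meet in dimension at most one. Let `S` be a subspace of dimension `s`,
`2 ≤ s ≤ k`, and `U₀` a subspace; for `s = 2, 3` assume that all members of `C` other than `U₀` meet `S` in dimension
at most `s - 2`. If the sum of `q ^ dim (U ∩ S) - 1` over the members `U ≠ U₀` of `C` is at most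
`q ^ (k - s) (q ^ (s - 2) - 1) (q ^ s - q ^ (s - 2) - q)`, then `C` has at most `q ^ (2 k) + 1` members.
-/

set_option autoImplicit false

open scoped Classical in
theorem Pool.Agent.Results.MP_8b575b_co.LightSubspace.result :
    ∀ (K V : Type) [Field K] [Fintype K] [AddCommGroup V] [Module K V] (k s : ℕ), 2 ≤ s → s ≤ k →
      Module.finrank K V = 2 * k →
      ∀ C : Finset (Submodule K V), (∀ U ∈ C, Module.finrank K U = k) →
      (∀ U ∈ C, ∀ W ∈ C, U ≠ W → Module.finrank K ↥(U ⊓ W) ≤ 1) →
      ∀ S U₀ : Submodule K V, Module.finrank K S = s →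
      (4 ≤ s ∨ ∀ U ∈ C, U ≠ U₀ → Module.finrank K ↥(U ⊓ S) + 2 ≤ s) →
      ∑ U ∈ C.erase U₀, (Fintype.card K ^ Module.finrank K ↥(U ⊓ S) - 1) ≤
        Fintype.card K ^ (k - s) * ((Fintype.card K ^ (s - 2) - 1) *
          (Fintype.card K ^ s - Fintype.card K ^ (s - 2) - Fintype.card K)) →
      C.card ≤ Fintype.card K ^ (2 * k) + 1 :=
  fun K V _ _ _ _ k s hs2 hsk hV C hC hd S U₀ hS hex h =>
    Pool.Agent.MP8bT.light_main K V k s hs2 hsk hV C hC hd S U₀ hS hex h
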