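import Pool.Agent.Lib.MP_8b575b_co.Cyc.Lin
import Pool.Agent.Lib.MP_8b575b_co.Cyc.Om
import Pool.Agent.Lib.MP_8b575b_co.Cyc.Asy
import Pool.Agent.Lib.MP_8b575b_co.Cyc.Hda
import Pool.Agent.Lib.MP_8b575b_co.Cyc.Hdi
import Pool.Agent.Lib.MP_8b575b_co.Cyc.Inv
import Pool.Agent.Lib.MP_8b575b_co.Cyc.Wr
import Pool.Agent.Lib.MP_8b575b_co.Cyc.Clo
import Pool.Agent.Lib.MP_8b575b_co.Cyc.Core
import Pool.Agent.Lib.MP_8b575b_co.Cyc.Cnt
import Pool.Agent.Lib.MP_8b575b_co.Cyc.Orb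
import Pool.Agent.Lib.MP_8b575b_co.Cyc.Fie
import Pool.Agent.Lib.MP_8b575b_co.Tor.Ax
import Pool.Agent.Lib.MP_8b575b_co.Tor.Pt
import Pool.Agent.Lib.MP_8b575b_co.Tor.Cn
import Pool.Agent.Lib.MP_8b575b_co.Tor.St
import Pool.Agent.Lib.MP_8b575b_co.Tor.Or
import Pool.Agent.Lib.MP_8b575b_co.Tor.Ga
import Pool.Agent.Lib.MP_8b575b_co.Tor.Tf
import Pool.Agent.Lib.MP_8b575b_co.Tor.Lx
import Pool.Agent.Lib.MP_8b575b_co.Tor.Mo
import Pool.Agent.Lib.MP_8b575b_co.Tor.Cm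
import Pool.Agent.Lib.MP_8b575b_co.Tor.Ze
import Pool.Agent.Lib.MP_8b575b_co.Tor.Nx
import Pool.Agent.Lib.MP_8b575b_co.Tor.In
import Pool.Agent.Lib.MP_8b575b_co.Tor.Q2
import Pool.Agent.Lib.MP_8b575b_co.Tor.Pa
import Pool.Agent.Lib.MP_8b575b_co.Tor.Pz
import Pool.Agent.Lib.MP_8b575b_co.Tor.Pc
import Pool.Agent.Lib.MP_8b575b_co.Tor.Pi
import Pool.Agent.Lib.MP_8b575b_co.Tor.Px
import Pool.Agent.Lib.MP_8b575b_co.Tor.P1
import Pool.Agent.Lib.MP_8b575b_co.Tor.Pe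
import Pool.Agent.Lib.MP_8b575b_co.Tor.Pf
import Pool.Agent.Lib.MP_8b575b_co.Tor.Tg
import Pool.Agent.Lib.MP_8b575b_co.Tor.Tr
import Pool.Agent.Lib.MP_8b575b_co.Tor.Aa
import Pool.Agent.Lib.MP_8b575b_co.Tor.Ab
import Pool.Agent.Lib.MP_8b575b_co.Tor.Ac

/-!
# MP_8b575b_co: codes invariant under a maximal torus

Let `K` be the field with `q` elements, `k ≥ 4`, and let `F i` be finitely many finite extension fields of `K`, each
with more than two elements, whose product `A` has dimension `2 k` over `K`. A set of `k`-dimensional `K`-subspaces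
of `A` which pairwise meet in dimension at most one, and which is invariant under the multiplications by the units
of `A` (these form a maximal torus of the general linear group), has at most `q ^ (2 k) + 1` elements.
-/

set_option autoImplicit false

open scoped Classical in
theorem Pool.Agent.Results.MP_8b575b_co.MaximalTori.result :
    ∀ (K ι : Type) [Field K] [Fintype K] [Fintype ι] (F : ι → Type) [∀ i, Field (F i)]
      [∀ i, Fintype (F i)] [∀ i, Algebra K (F i)] (k : ℕ), 4 ≤ k →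
      Module.finrank K (∀ i, F i) = 2 * k → (∀ i, 2 < Fintype.card (F i)) →
      ∀ D : Finset (Submodule K (∀ i, F i)), (∀ U ∈ D, Module.finrank K U = k) →
      (∀ U ∈ D, ∀ W ∈ D, U ≠ W → Module.finrank K ↥(U ⊓ W) ≤ 1) →
      (∀ a : (∀ i, F i), (∀ i, a i ≠ 0) → ∀ U ∈ D, U.map (LinearMap.mulLeft K a) ∈ D) →
      D.card ≤ Fintype.card K ^ (2 * k) + 1 := by
  have hLin := Pool.Agent.MP8b.tLin
  have hOm := Pool.Agent.MP8b.tOm
  have hAsy := Pool.Agent.MP8b.tAsy hLin hOm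
  have hCore := Pool.Agent.MP8b.tCore hOm hAsy Pool.Agent.MP8b.tHda Pool.Agent.MP8b.tHdi
    Pool.Agent.MP8b.tInv Pool.Agent.MP8b.tWr Pool.Agent.MP8b.tClo
  have hFie := Pool.Agent.MP8b.tFie hCore Pool.Agent.MP8b.tCnt
    (Pool.Agent.MP8b.tOrb Pool.Agent.MP8b.tCnt)
  have hAx := Pool.Agent.MP8bT.tAx
  have hPt := Pool.Agent.MP8bT.tPt hAx
  have hTf := Pool.Agent.MP8bT.tTf (Pool.Agent.MP8bT.tCn hPt)
    (Pool.Agent.MP8bT.tOr hAx (Pool.Agent.MP8bT.tSt hAx)) Pool.Agent.MP8bT.tGa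
  have hLx := Pool.Agent.MP8bT.tLx hAx
  have hZe := Pool.Agent.MP8bT.tZe hAx hLx
  have hNx := Pool.Agent.MP8bT.tNx hAx hLx
  have hPa := Pool.Agent.MP8bT.tPa
  have hPi := Pool.Agent.MP8bT.tPi hPa (Pool.Agent.MP8bT.tPc hPa)
  have hPe := Pool.Agent.MP8bT.tPe hAx hNx hPi Pool.Agent.MP8bT.tPx
    (Pool.Agent.MP8bT.tP1 hAx hZe)
  have hPf := Pool.Agent.MP8bT.tPf hNx (Pool.Agent.MP8bT.tIn hZe)
    (Pool.Agent.MP8bT.tQ2 hAx hLx hZe hNx) hPa Pool.Agent.MP8bT.tPz hPe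
  have hTg := Pool.Agent.MP8bT.tTg hTf Pool.Agent.MP8bT.tMo (Pool.Agent.MP8bT.tCm hPt) hPf
  exact Pool.Agent.MP8bT.tAc hFie hTg Pool.Agent.MP8bT.tTr Pool.Agent.MP8bT.tAa
    Pool.Agent.MP8bT.tAb
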